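import Pool.Agent.Q234.KG.Stm2

/-!
# Project KG: box operators and region operators (statement BoxS), any local dimension
(generalization of the file of helper237 for project KT)
-/

set_option autoImplicit false

open scoped BigOperators ComplexConjugate
open Finset

namespace Pool.Agent.Q195.KG.BX

open Pool.Agent.Q234.KG
open Pool.Agent.Q234.KT (bR pt)

lemma pt_inj (N : ℕ) : Function.Injective (pt N) := by
  intro x y h
  have h1 := congrArg Subtype.val h
  simp only [pt, Prod.mk.injEq, Nat.cast_inj] at h1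
  exact Prod.ext (Fin.ext h1.1) (Fin.ext h1.2)

lemma pt_surj (N : ℕ) : Function.Surjective (pt N) := by
  rintro ⟨y, hy⟩
  obtain ⟨p, hp, rfl⟩ := Finset.mem_image.1 hy
  obtain ⟨h1, h2⟩ := Finset.mem_product.1 hp
  refine ⟨(⟨p.1, Finset.mem_range.1 h1⟩, ⟨p.2, Finset.mem_range.1 h2⟩), ?_⟩
  apply Subtype.ext
  rfl

/-- the bijection -/
noncomputable def pe (N : ℕ) : Fin N × Fin N ≃ bR N :=
  Equiv.ofBijective (pt N) ⟨pt_inj N, pt_surj N⟩

lemma pe_apply (N : ℕ) (x : Fin N × Fin N) : pe N x = pt N x := rfl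

lemma toTorus_pt (N L : ℕ) (u : Pool.Agent.TH235.PP.Site L) (x : Fin N × Fin N) :
    Pool.Agent.H4R2.toTorus L (pt N x : ℤ × ℤ) + u = Pool.Agent.TH235.PP.sh u x := by
  unfold Pool.Agent.H4R2.toTorus Pool.Agent.TH235.PP.sh pt
  apply Prod.ext
  · simp [add_comm]
  · simp [add_comm]

lemma term_eq {d : ℕ} (N : ℕ) (h : Pool.Agent.TH235.PP.BoxOp d N) (L : ℕ)
    (u : Pool.Agent.TH235.PP.Site L) :
    Pool.Agent.TH235.PP.term h u = Pool.Agent.H4R2.term (bR N) (toR h) L u := by
  classical
  funext s t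
  have hc : (∀ v, (∀ x : Fin N × Fin N, Pool.Agent.TH235.PP.sh u x ≠ v) → s v = t v) ↔
      ∀ v, (∀ x : bR N, Pool.Agent.H4R2.toTorus L x + u ≠ v) → s v = t v := by
    constructor
    · intro g v hv
      apply g v
      intro x
      rw [← toTorus_pt]
      exact hv (pt N x)
    · intro g v hv
      apply g v
      intro y
      obtain ⟨x, rfl⟩ := pt_surj N y
      rw [toTorus_pt]
      exact hv x
  unfold Pool.Agent.TH235.PP.term Pool.Agent.H4R2.term
  by_cases hh : ∀ v, (∀ x : Fin N × Fin N, Pool.Agent.TH235.PP.sh u x ≠ v) → s v = t v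
  · rw [if_pos hh, if_pos (hc.1 hh)]
    unfold toR
    simp only [toTorus_pt]
  · rw [if_neg hh, if_neg (fun h' => hh (hc.2 h'))]

theorem main : BoxS := by
  intro d
  refine ⟨?_, ?_, ?_⟩
  · intro N h L _
    unfold Pool.Agent.TH235.PP.ham Pool.Agent.H4R2.ham
    exact Finset.sum_congr rfl fun u _ => term_eq N h L u
  · intro N O
    refine ⟨fun p q => O (fun y => p ((pe N).symm y)) (fun y => q ((pe N).symm y)), ?_, ?_, ?_⟩
    · funext a b
      have h1 : ∀ c : bR N → Fin d, (fun y => c (pt N ((pe N).symm y))) = c := by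
        intro c
        funext y
        rw [← pe_apply, Equiv.apply_symm_apply]
      show O (fun y => a (pt N ((pe N).symm y))) (fun y => b (pt N ((pe N).symm y))) = O a b
      rw [h1, h1]
    · intro hO
      apply Matrix.ext
      intro p q
      exact hO.apply _ _
    · intro p q
      exact ⟨_, _, rfl⟩
  · intro N h hh
    apply Matrix.ext
    intro a b
    rw [Matrix.conjTranspose_apply]
    exact hh.apply _ _

end Pool.Agent.Q195.KG.BX
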