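import Pool.Agent.Q234.KG.Stm2
import Pool.Agent.Y738.PE.Final

/-!
# Project KG, job RD: expectations on boxes in terms of the reduced states, any local dimension
(generalization of the file of helper285 for project KT)
-/

set_option autoImplicit false

open scoped BigOperators ComplexConjugate
open Finset Pool.Agent.Q234.KG
open Pool.Agent.Q234.KT (bR pt)

namespace Pool.Agent.Q195.KG.RD

variable {d : ℕ}

/-- the bijection of the box -/
noncomputable def eR (r : ℕ) : (Fin r × Fin r) ≃ bR r := Equiv.ofBijective (pt r) (by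
  constructor
  · intro x y hxy
    have h1 := congrArg Subtype.val hxy
    have h2 : (((x.1 : ℕ) : ℤ), ((x.2 : ℕ) : ℤ)) = (((y.1 : ℕ) : ℤ), ((y.2 : ℕ) : ℤ)) := h1
    rw [Prod.mk.injEq] at h2
    refine Prod.ext (Fin.ext ?_) (Fin.ext ?_)
    · exact_mod_cast h2.1
    · exact_mod_cast h2.2
  · rintro ⟨x, hx⟩
    obtain ⟨p, hp, hpx⟩ := Finset.mem_image.1 hx
    obtain ⟨h1, h2⟩ := Finset.mem_product.1 hp
    exact ⟨(⟨p.1, Finset.mem_range.1 h1⟩, ⟨p.2, Finset.mem_range.1 h2⟩), Subtype.ext hpx⟩)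

/-- a configuration of the box as a configuration of the region -/
noncomputable def hat {r : ℕ} (σ : Pool.Agent.Y738.PE.BConf d r) : bR r → Fin d := fun x => σ ((eR r).symm x)

lemma hat_pt {r : ℕ} (σ : Pool.Agent.Y738.PE.BConf d r) (p : Fin r × Fin r) : hat σ (pt r p) = σ p := by
  unfold hat
  have : (eR r) p = pt r p := rfl
  rw [← this, Equiv.symm_apply_apply]

lemma torus_pt {r L : ℕ} (p : Fin r × Fin r) : Pool.Agent.H4R2.toTorus L (pt r p) = (((p.1 : ℕ) : ZMod L), ((p.2 : ℕ) : ZMod L)) := by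
  unfold Pool.Agent.H4R2.toTorus pt
  simp

lemma ker_iff {r L : ℕ} [NeZero L] (hr : r ≤ L) (σ τ : Pool.Agent.Y738.PE.BConf d r) (s t : Pool.Agent.Y738.PE.Conf d L) :
    Pool.Agent.H4R2.Ker (fun x : bR r => Pool.Agent.H4R2.toTorus L x) (hat τ) (hat σ) s t ↔
      Pool.Agent.Y738.PE.box r t 0 = σ ∧ s = Pool.Agent.Y738.PE.put t 0 τ := by
  have hval : ∀ p : Fin r, (((p : ℕ) : ZMod L)).val = p := fun p => ZMod.val_natCast_of_lt (lt_of_lt_of_le p.2 hr)
  have hsurj : ∀ x : bR r, ∃ p, pt r p = x := fun x => (eR r).surjective x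
  constructor
  · rintro ⟨h1, h2, h3⟩
    refine ⟨?_, ?_⟩
    · funext p
      have h4 : t (Pool.Agent.H4R2.toTorus L (pt r p)) = hat σ (pt r p) := h2 (pt r p)
      rw [hat_pt, torus_pt] at h4
      unfold Pool.Agent.Y738.PE.box
      simp only [Prod.fst_zero, Prod.snd_zero, zero_add]
      exact h4
    · funext w
      unfold Pool.Agent.Y738.PE.put
      simp only [Prod.fst_zero, Prod.snd_zero, sub_zero]
      split_ifs with h
      · have h4 : s (Pool.Agent.H4R2.toTorus L (pt r (⟨w.1.val, h.1⟩, ⟨w.2.val, h.2⟩))) = hat τ (pt r (⟨w.1.val, h.1⟩, ⟨w.2.val, h.2⟩)) :=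
          h1 (pt r (⟨w.1.val, h.1⟩, ⟨w.2.val, h.2⟩))
        rw [hat_pt, torus_pt] at h4
        simp only [ZMod.natCast_val, ZMod.cast_id', id_eq, Prod.mk.eta] at h4
        exact h4
      · refine h3 w ?_
        intro x hx
        obtain ⟨p, rfl⟩ := hsurj x
        have hx : Pool.Agent.H4R2.toTorus L (pt r p) = w := hx
        rw [torus_pt] at hx
        refine h ?_
        rw [← hx]
        exact ⟨(hval p.1).trans_lt p.1.2, (hval p.2).trans_lt p.2.2⟩
  · rintro ⟨h1, h2⟩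
    refine ⟨?_, ?_, ?_⟩
    · intro x
      obtain ⟨p, rfl⟩ := hsurj x
      show s (Pool.Agent.H4R2.toTorus L (pt r p)) = hat τ (pt r p)
      rw [hat_pt, torus_pt, h2]
      unfold Pool.Agent.Y738.PE.put
      simp only [Prod.fst_zero, Prod.snd_zero, sub_zero]
      rw [dif_pos ⟨(hval p.1).trans_lt p.1.2, (hval p.2).trans_lt p.2.2⟩]
      congr 1
      exact Prod.ext (Fin.ext (hval p.1)) (Fin.ext (hval p.2))
    · intro x
      obtain ⟨p, rfl⟩ := hsurj x
      show t (Pool.Agent.H4R2.toTorus L (pt r p)) = hat σ (pt r p)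
      rw [hat_pt, torus_pt, ← h1]
      unfold Pool.Agent.Y738.PE.box
      simp only [Prod.fst_zero, Prod.snd_zero, zero_add]
    · intro v hv
      rw [h2]
      unfold Pool.Agent.Y738.PE.put
      simp only [Prod.fst_zero, Prod.snd_zero, sub_zero]
      rw [dif_neg]
      intro h
      refine hv (pt r (⟨v.1.val, h.1⟩, ⟨v.2.val, h.2⟩)) ?_
      show Pool.Agent.H4R2.toTorus L (pt r (⟨v.1.val, h.1⟩, ⟨v.2.val, h.2⟩)) = v
      rw [torus_pt]
      simp

open Classical in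
lemma rdm_eq {r L : ℕ} [NeZero L] (hr : r ≤ L) (Ψ : Pool.Agent.Y738.PE.Conf d L → ℂ) (σ τ : Pool.Agent.Y738.PE.BConf d r) :
    Pool.Agent.H4R2.rdm (fun x : bR r => Pool.Agent.H4R2.toTorus L x) Ψ (hat τ) (hat σ) =
      ∑ t : Pool.Agent.Y738.PE.Conf d L, if Pool.Agent.Y738.PE.box r t 0 = σ then
        Ψ (Pool.Agent.Y738.PE.put t 0 τ) * conj (Ψ t) else 0 := by
  rw [Pool.Agent.H4R2.rdm_apply, Finset.sum_comm]
  refine Finset.sum_congr rfl fun t _ => ?_
  simp only [ker_iff hr]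
  by_cases h : Pool.Agent.Y738.PE.box r t 0 = σ
  · rw [if_pos h]
    rw [Finset.sum_eq_single (Pool.Agent.Y738.PE.put t 0 τ)]
    · rw [if_pos ⟨h, rfl⟩]
    · intro s _ hs
      rw [if_neg fun hh => hs hh.2]
    · intro hh
      exact absurd (Finset.mem_univ _) hh
  · rw [if_neg h]
    exact Finset.sum_eq_zero fun s _ => if_neg fun hh => h hh.1

open Classical in
lemma expec_eq {r L : ℕ} [NeZero L] (hr : r ≤ L) (Ψ : Pool.Agent.Y738.PE.Conf d L → ℂ)
    (B : Pool.Agent.Y738.PE.BConf d r → Pool.Agent.Y738.PE.BConf d r → ℂ) :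
    Pool.Agent.Y738.PE.expec Ψ 0 B = ∑ σ, ∑ τ, B σ τ *
      Pool.Agent.H4R2.rdm (fun x : bR r => Pool.Agent.H4R2.toTorus L x) Ψ (hat τ) (hat σ) := by
  simp only [rdm_eq hr, Finset.mul_sum]
  unfold Pool.Agent.Y738.PE.expec
  have h1 : ∀ σ : Pool.Agent.Y738.PE.BConf d r, ∑ τ : Pool.Agent.Y738.PE.BConf d r, ∑ t : Pool.Agent.Y738.PE.Conf d L,
      B σ τ * (if Pool.Agent.Y738.PE.box r t 0 = σ then Ψ (Pool.Agent.Y738.PE.put t 0 τ) * conj (Ψ t) else 0) =
      ∑ t : Pool.Agent.Y738.PE.Conf d L, ∑ τ : Pool.Agent.Y738.PE.BConf d r,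
      B σ τ * (if Pool.Agent.Y738.PE.box r t 0 = σ then Ψ (Pool.Agent.Y738.PE.put t 0 τ) * conj (Ψ t) else 0) :=
    fun σ => Finset.sum_comm
  simp only [h1]
  refine Eq.trans ?_ Finset.sum_comm
  refine Finset.sum_congr rfl fun t _ => ?_
  symm
  rw [Finset.sum_eq_single (Pool.Agent.Y738.PE.box r t 0)]
  · refine Finset.sum_congr rfl fun τ _ => ?_
    rw [if_pos rfl]
    ring
  · intro σ _ hσ
    refine Finset.sum_eq_zero fun τ _ => ?_
    rw [if_neg (Ne.symm hσ), mul_zero]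
  · intro hh
    exact absurd (Finset.mem_univ _) hh

lemma entry {S : Type} [Fintype S] [DecidableEq S] {B : S → S → ℂ} (hB : Pool.Agent.Y738.PE.Contr B) (σ τ : S) : ‖B σ τ‖ ≤ 1 := by
  have h1 := hB (Pi.single τ 1)
  unfold Pool.Agent.Y738.PE.nrm at h1
  have h2 : ∑ s : S, ‖(Pi.single τ 1 : S → ℂ) s‖ ^ 2 = 1 := by
    rw [Finset.sum_eq_single τ]
    · simp
    · intro s _ hs
      rw [Pi.single_eq_of_ne hs]
      simp
    · intro hh
      exact absurd (Finset.mem_univ _) hh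
  have h3 : ∀ s : S, ∑ τ' : S, B s τ' * (Pi.single τ 1 : S → ℂ) τ' = B s τ := by
    intro s
    rw [Finset.sum_eq_single τ]
    · simp
    · intro s _ hs
      rw [Pi.single_eq_of_ne hs, mul_zero]
    · intro hh
      exact absurd (Finset.mem_univ _) hh
  rw [h2] at h1
  simp only [h3] at h1
  have h4 : ‖B σ τ‖ ^ 2 ≤ ∑ s : S, ‖B s τ‖ ^ 2 := Finset.single_le_sum (f := fun s => ‖B s τ‖ ^ 2) (fun s _ => by positivity) (Finset.mem_univ σ)
  have h5 : ‖B σ τ‖ ^ 2 ≤ 1 := h4.trans h1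
  exact (sq_le_one_iff₀ (norm_nonneg _)).1 h5

theorem main : RedS := by
  classical
  intro d r hd hr
  have : NeZero d := ⟨by omega⟩
  refine ⟨(Fintype.card (Pool.Agent.Y738.PE.BConf d r) : ℝ) ^ 2, ?_, ?_⟩
  · have : 0 < Fintype.card (Pool.Agent.Y738.PE.BConf d r) := Fintype.card_pos
    positivity
  intro L L' _ _ hL hL' Ψ Ψ' η hΨ hΨ' hT hT' hη u v B hB
  have t1 : Pool.Agent.Y738.PE.TransInv Ψ := by
    intro a
    obtain ⟨c, hc⟩ := hT a
    exact ⟨c, fun s => congrFun hc s⟩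
  have t2 : Pool.Agent.Y738.PE.TransInv Ψ' := by
    intro a
    obtain ⟨c, hc⟩ := hT' a
    exact ⟨c, fun s => congrFun hc s⟩
  rw [Pool.Agent.Y738.PE.transInv_expec Ψ hΨ t1, Pool.Agent.Y738.PE.transInv_expec Ψ' hΨ' t2, expec_eq hL, expec_eq hL']
  have e1 : ∀ a b, Pool.Agent.H4R2.redState (bR r) Ψ a b = Pool.Agent.H4R2.rdm (fun x : bR r => Pool.Agent.H4R2.toTorus L x) Ψ a b := by
    intro a b
    unfold Pool.Agent.H4R2.redState
    rw [hΨ]
    simp
  have e2 : ∀ a b, Pool.Agent.H4R2.redState (bR r) Ψ' a b = Pool.Agent.H4R2.rdm (fun x : bR r => Pool.Agent.H4R2.toTorus L' x) Ψ' a b := by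
    intro a b
    unfold Pool.Agent.H4R2.redState
    rw [hΨ']
    simp
  simp only [← Finset.sum_sub_distrib, ← mul_sub]
  refine (norm_sum_le _ _).trans ?_
  have h1 : ∀ σ : Pool.Agent.Y738.PE.BConf d r, ‖∑ τ : Pool.Agent.Y738.PE.BConf d r, B σ τ *
      (Pool.Agent.H4R2.rdm (fun x : bR r => Pool.Agent.H4R2.toTorus L x) Ψ (hat τ) (hat σ) -
        Pool.Agent.H4R2.rdm (fun x : bR r => Pool.Agent.H4R2.toTorus L' x) Ψ' (hat τ) (hat σ))‖ ≤
      Fintype.card (Pool.Agent.Y738.PE.BConf d r) * η := by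
    intro σ
    refine (norm_sum_le _ _).trans ?_
    have h2 : ∀ τ ∈ (Finset.univ : Finset (Pool.Agent.Y738.PE.BConf d r)), ‖B σ τ *
      (Pool.Agent.H4R2.rdm (fun x : bR r => Pool.Agent.H4R2.toTorus L x) Ψ (hat τ) (hat σ) -
        Pool.Agent.H4R2.rdm (fun x : bR r => Pool.Agent.H4R2.toTorus L' x) Ψ' (hat τ) (hat σ))‖ ≤ η := by
      intro τ _
      rw [norm_mul]
      have h3 := hη (hat τ) (hat σ)
      rw [e1, e2] at h3
      calc _ ≤ 1 * ‖Pool.Agent.H4R2.rdm (fun x : bR r => Pool.Agent.H4R2.toTorus L x) Ψ (hat τ) (hat σ) -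
        Pool.Agent.H4R2.rdm (fun x : bR r => Pool.Agent.H4R2.toTorus L' x) Ψ' (hat τ) (hat σ)‖ :=
            mul_le_mul_of_nonneg_right (entry hB σ τ) (norm_nonneg _)
        _ ≤ η := by rw [one_mul]; exact h3
    have h4 := Finset.sum_le_card_nsmul _ _ _ h2
    rw [nsmul_eq_mul, Finset.card_univ] at h4
    exact h4
  have h5 := Finset.sum_le_card_nsmul (Finset.univ : Finset (Pool.Agent.Y738.PE.BConf d r)) _ _ fun σ _ => h1 σ
  rw [nsmul_eq_mul, Finset.card_univ] at h5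
  refine h5.trans (le_of_eq ?_)
  ring

end Pool.Agent.Q195.KG.RD
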