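import Pool.Agent.Y665.PE.C3

/-!
# Transfer of reduced states between system sizes, with explicit sizes, any local dimension
(generalization of the file of helper176 for project KT)
-/

set_option autoImplicit false
set_option linter.unusedSectionVars false

open scoped BigOperators Topology
open Finset Filter
open Pool.Agent.H4R2
open Pool.Agent.Y665.PE

namespace Pool.Agent.Q195.KG.RT

/-- the system size which is needed for the precision `ε` -/
noncomputable def sz (d : ℕ) (R : Finset (ℤ × ℤ)) (ε : ℝ) : ℕ :=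
  (side d R ε + 2) * (side d R ε + 2) + (side d R ε + 3) * R.card + 1

/-- The entrywise form of the main estimate, for all systems of size at least `sz d R ε`. -/
theorem entry_approx_sz {d : ℕ} (hd : 2 ≤ d) (R : Finset (ℤ × ℤ)) (ε : ℝ) (hε : 0 < ε) :
    ∀ (L : ℕ) [NeZero L], sz d R ε ≤ L → ∀ ψ : (Site L → Fin d) → ℂ, normSq ψ = 1 →
      TransInv ψ → ∃ A : Tensor d (bondDim d R ε), ∀ (L' : ℕ) [NeZero L'], sz d R ε ≤ L' →
        0 < normSq (contract A L') ∧ ∀ a b,
          ‖redState R (contract A L') a b - redState R ψ a b‖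
            ≤ ε / (2 * ((d : ℝ) ^ R.card) ^ 2) := by
  classical
  unfold sz
  set M := side d R ε with hM
  have hM1 : 2 * R.card + 2 ≤ M := by rw [hM]; unfold side; omega
  have hM2 : 2 * rad R + 2 ≤ M := by rw [hM]; unfold side; omega
  have : NeZero M := ⟨by omega⟩
  have hM3 : 16 * ((rad R : ℝ) + 2) * (d : ℝ) ^ (2 * R.card) / ε ≤ M := by
    refine (Nat.le_ceil _).trans ?_
    rw [hM]; unfold side
    push_cast
    have : (0 : ℝ) ≤ 2 * (R.card : ℝ) + 2 * rad R + 2 := by positivity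
    linarith
  intro L _ hL ψ hψ hT
  let x : R → ℤ × ℤ := fun y => y
  have hr : ∀ i, |(x i).1| ≤ (rad R : ℕ) ∧ |(x i).2| ≤ (rad R : ℕ) := by
    intro i
    have h1 : max (x i).1.natAbs (x i).2.natAbs ≤ rad R :=
      Finset.le_sup (f := fun x : ℤ × ℤ => max x.1.natAbs x.2.natAbs) i.2
    constructor
    · rw [Int.abs_eq_natAbs]; exact_mod_cast (le_max_left _ _).trans h1
    · rw [Int.abs_eq_natAbs]; exact_mod_cast (le_max_right _ _).trans h1
  obtain ⟨Φ, hΦ, hΦ2⟩ := exists_block hd ψ hψ x (rad R) hr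
    (by rw [Fintype.card_coe]; exact hM1) hM2 (by nlinarith)
    (fun u a b => rdm_shift ψ hψ hT (fun i => toTorus L (x i)) u a b)
  have hcard : Fintype.card (Lab d M) = bondDim d R ε := by
    unfold bondDim
    rw [← hM]
    simp only [Fintype.card_prod, Fintype.card_fin, Fintype.card_pi, prod_const, card_univ]
    ring
  obtain ⟨e⟩ : Nonempty (Fin (bondDim d R ε) ≃ Lab d M) := by
    rw [← hcard]
    exact ⟨(Fintype.equivFin _).symm⟩
  refine ⟨fun s l r u n => tens hd Φ s (e l) (e r) (e u) (e n), ?_⟩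
  intro L' _ hL'
  have hcon : contract (fun s l r u n => tens hd Φ s (e l) (e r) (e u) (e n)) L'
      = contract (tens hd Φ) L' := by
    funext s
    exact contract_equiv e _ _ _
  rw [hcon]
  obtain ⟨h1, h2⟩ := block_main (L := L') hd Φ hΦ x (rad R) hr (Finset.Ico (rad R) (M - 1 - rad R))
    (fun k hk => by rw [Finset.mem_Ico] at hk; omega)
    (by rw [Finset.nonempty_Ico]; omega) (by nlinarith)
    (by rw [Fintype.card_coe]; nlinarith)
  refine ⟨h1, fun a b => ?_⟩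
  have h3 := h2 a b
  rw [hΦ2 a b] at h3
  unfold redState
  simp only [Matrix.smul_apply, smul_eq_mul]
  rw [hψ]
  simp only [Complex.ofReal_one, inv_one, one_mul]
  refine h3.trans ?_
  rw [Nat.card_Ico]
  have h4 : ((M - 1 - rad R - rad R : ℕ) : ℝ) = (M : ℝ) - 1 - rad R - rad R := by
    rw [Nat.cast_sub (by omega), Nat.cast_sub (by omega), Nat.cast_sub (by omega)]
    simp
  rw [h4]
  have hM0 : (0 : ℝ) < (M : ℝ) + 3 := by positivity
  have h5 : 4 * (1 - ((M : ℝ) - 1 - rad R - rad R) / (M + 3)) = 8 * ((rad R : ℝ) + 2) / (M + 3) := by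
    field_simp
    ring
  rw [h5]
  have hdp : (0 : ℝ) < (d : ℝ) ^ R.card := by
    have : (0 : ℝ) < (d : ℝ) := by
      have : 0 < d := by omega
      exact_mod_cast this
    positivity
  rw [div_le_div_iff₀ hM0 (by positivity)]
  rw [div_le_iff₀ hε] at hM3
  have h6 : (d : ℝ) ^ (2 * R.card) = ((d : ℝ) ^ R.card) ^ 2 := by
    rw [← pow_mul]; congr 1; ring
  rw [h6] at hM3
  nlinarith

/-- Reduced states of translation invariant vectors are reproduced on all large tori. -/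
theorem transfer_sz {d : ℕ} (hd : 2 ≤ d) (R : Finset (ℤ × ℤ)) (ε : ℝ) (hε : 0 < ε) :
    ∀ (L L' : ℕ) [NeZero L] [NeZero L'], sz d R ε ≤ L → sz d R ε ≤ L' →
      ∀ ψ : (Site L → Fin d) → ℂ, normSq ψ = 1 → TransInv ψ →
      ∃ φ : (Site L' → Fin d) → ℂ, normSq φ = 1 ∧ TransInv φ ∧
        ∀ a b, ‖redState R φ a b - redState R ψ a b‖ ≤ ε := by
  intro L L' _ _ hL hL' ψ hψ hT
  obtain ⟨A, hA⟩ := entry_approx_sz hd R ε hε L hL ψ hψ hT
  obtain ⟨h1, h2⟩ := hA L' hL'
  set N := normSq (contract A L') with hN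
  have hs : 0 < Real.sqrt N := Real.sqrt_pos.mpr h1
  set c : ℂ := (((Real.sqrt N)⁻¹ : ℝ) : ℂ) with hc
  have hcn : ‖c‖ = (Real.sqrt N)⁻¹ := by
    rw [hc, Complex.norm_real, Real.norm_of_nonneg (by positivity)]
  have hc0 : c ≠ 0 := by
    rw [← norm_ne_zero_iff, hcn]; positivity
  refine ⟨c • contract A L', ?_, ?_, ?_⟩
  · rw [normSq_smul, hcn, ← hN, inv_pow, Real.sq_sqrt h1.le]
    field_simp
  · apply transInv_smul
    intro u
    refine ⟨1, ?_⟩
    rw [one_smul]
    funext s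
    exact contract_shift A u s
  · intro a b
    rw [redState_smul R c hc0]
    refine (h2 a b).trans ?_
    have hdp : (1 : ℝ) ≤ (d : ℝ) ^ R.card := by
      apply one_le_pow₀
      have : 1 ≤ d := by omega
      exact_mod_cast this
    rw [div_le_iff₀ (by positivity)]
    nlinarith [hε.le, sq_nonneg ((d : ℝ) ^ R.card), mul_le_mul hdp hdp zero_le_one
      (by linarith : (0 : ℝ) ≤ (d : ℝ) ^ R.card)]

/-- The energies per site converge. -/
theorem energy_close_sz {d : ℕ} (hd : 2 ≤ d) (R : Finset (ℤ × ℤ)) (ε : ℝ) (hε : 0 < ε) :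
    ∀ (L L' : ℕ) [NeZero L] [NeZero L'], sz d R ε ≤ L → sz d R ε ≤ L' →
      ∀ (h : Matrix (R → Fin d) (R → Fin d) ℂ) (ψ : (Site L → Fin d) → ℂ)
        (ψ' : (Site L' → Fin d) → ℂ), IsGround (ham R h L) ψ → normSq ψ = 1 → TransInv ψ →
        IsGround (ham R h L') ψ' → normSq ψ' = 1 → TransInv ψ' →
        |(pair h (redState R ψ)).re - (pair h (redState R ψ')).re| ≤ (∑ a, ∑ b, ‖h a b‖) * ε := by
  intro L L' _ _ hL hL' h ψ ψ' hg hψ hT hg' hψ' hT'
  obtain ⟨φ, h1, h2, h3⟩ := transfer_sz hd R ε hε L L' hL hL' ψ hψ hT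
  obtain ⟨φ', h1', h2', h3'⟩ := transfer_sz hd R ε hε L' L hL' hL ψ' hψ' hT'
  have e1 := ground_pair R hg' hψ' hT' h1 h2
  have e2 := ground_pair R hg hψ hT h1' h2'
  have e3 := abs_le.mp (pair_le h _ _ ε h3)
  have e4 := abs_le.mp (pair_le h _ _ ε h3')
  rw [abs_le]
  constructor <;> linarith [e3.1, e3.2, e4.1, e4.2]

/-- the size is quadratic in the inverse precision -/
theorem sz_le {d : ℕ} (hd : 2 ≤ d) (R : Finset (ℤ × ℤ)) : ∃ C : ℝ, 0 < C ∧ ∀ ε : ℝ, 0 < ε → ε ≤ 1 →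
    (sz d R ε : ℝ) ≤ C / ε ^ 2 := by
  set A : ℝ := 16 * ((rad R : ℝ) + 2) * (d : ℝ) ^ (2 * R.card) with hA
  have hd0 : (0 : ℝ) < (d : ℝ) := by
    have : 0 < d := by omega
    exact_mod_cast this
  have hA0 : 0 < A := by rw [hA]; positivity
  set B : ℝ := A + 1 + 2 * R.card + 2 * rad R + 2 with hB
  have hB0 : 0 < B := by rw [hB]; positivity
  have hside : ∀ ε : ℝ, 0 < ε → ε ≤ 1 → (side d R ε : ℝ) ≤ B / ε := by
    intro ε hε hε1
    have h1 : (⌈A / ε⌉₊ : ℝ) ≤ A / ε + 1 := (Nat.ceil_lt_add_one (by positivity)).le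
    have h2 : (side d R ε : ℝ) = (⌈A / ε⌉₊ : ℝ) + 2 * R.card + 2 * rad R + 2 := by
      unfold side
      push_cast
      rfl
    rw [h2, hB]
    have h3 : (1 + 2 * (R.card : ℝ) + 2 * rad R + 2) ≤
        (1 + 2 * (R.card : ℝ) + 2 * rad R + 2) / ε := by
      rw [le_div_iff₀ hε]
      have : (0 : ℝ) ≤ 1 + 2 * (R.card : ℝ) + 2 * rad R + 2 := by positivity
      nlinarith
    have h4 : (A + 1 + 2 * (R.card : ℝ) + 2 * rad R + 2) / ε =
        A / ε + (1 + 2 * (R.card : ℝ) + 2 * rad R + 2) / ε := by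
      rw [← add_div]
      congr 1
      ring
    rw [h4]
    linarith
  refine ⟨(B + 2) * (B + 2) + (B + 3) * R.card + 1, by positivity, fun ε hε hε1 => ?_⟩
  have h1 := hside ε hε hε1
  have h2 : (sz d R ε : ℝ) = ((side d R ε : ℝ) + 2) * ((side d R ε : ℝ) + 2) +
      ((side d R ε : ℝ) + 3) * R.card + 1 := by
    unfold sz
    push_cast
    ring
  have h3 : (side d R ε : ℝ) * ε ≤ B := by
    rwa [le_div_iff₀ hε] at h1
  have h5 : (0 : ℝ) ≤ (side d R ε : ℝ) := Nat.cast_nonneg _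
  have h6 : ((side d R ε : ℝ) + 2) * ε ≤ B + 2 := by nlinarith
  have h7 : ((side d R ε : ℝ) + 3) * ε ^ 2 ≤ B + 3 := by
    have : ε ^ 2 ≤ ε := by nlinarith
    nlinarith
  have h8 : (((side d R ε : ℝ) + 2) * ε) * (((side d R ε : ℝ) + 2) * ε) ≤ (B + 2) * (B + 2) :=
    mul_le_mul h6 h6 (by positivity) (by positivity)
  have h9 : (0 : ℝ) ≤ R.card := Nat.cast_nonneg _
  have h10 := mul_le_mul_of_nonneg_right h7 h9
  rw [h2, le_div_iff₀ (by positivity)]
  have h11 : ε ^ 2 ≤ 1 := by nlinarith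
  nlinarith

end Pool.Agent.Q195.KG.RT
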