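import Pool.Agent.Q234.KG.Stm2
import Pool.Agent.H4R2.Ham

/-!
# From closeness of expectations to the trace norm of the difference of the reduced states, any local dimension
(generalization of the file of helper164 for project KT)
-/

set_option autoImplicit false

open scoped BigOperators ComplexConjugate
open Finset Pool.Agent.Y738.PE

namespace Pool.Agent.Q195.KG.TR

open Classical in
/-- the matrix unit with the entry `1` at `(b, a)` -/
noncomputable def unitM {S : Type} (b a : S) : S → S → ℂ := fun σ τ => if σ = b ∧ τ = a then 1 else 0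

theorem contr_unitM {S : Type} [Fintype S] (b a : S) : Contr (unitM b a) := by
  classical
  intro f
  unfold nrm
  have h1 : ∀ σ : S, ‖∑ τ, unitM b a σ τ * f τ‖ ^ 2 = if σ = b then ‖f a‖ ^ 2 else 0 := by
    intro σ
    by_cases h : σ = b
    · have h2 : ∑ τ, unitM b a σ τ * f τ = f a := by
        rw [Finset.sum_eq_single a]
        · simp [unitM, h]
        · intro τ _ hτ
          simp [unitM, hτ]
        · intro h3
          exact absurd (Finset.mem_univ a) h3
      rw [h2, if_pos h]
    · have h2 : ∑ τ, unitM b a σ τ * f τ = 0 := by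
        apply Finset.sum_eq_zero
        intro τ _
        simp [unitM, h]
      rw [h2, if_neg h]
      simp
  simp only [h1]
  rw [Finset.sum_ite_eq' Finset.univ b, if_pos (Finset.mem_univ b)]
  exact Finset.single_le_sum (f := fun s => ‖f s‖ ^ 2) (fun s _ => sq_nonneg _) (Finset.mem_univ a)

theorem contr_zero {S : Type} [Fintype S] : Contr (fun (_ _ : S) => (0 : ℂ)) := by
  intro f
  unfold nrm
  simp only [zero_mul, Finset.sum_const_zero, norm_zero]
  rw [show (∑ _s : S, (0 : ℝ) ^ 2) = 0 by simp]
  exact Finset.sum_nonneg fun s _ => sq_nonneg _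

theorem entry {d L : ℕ} [NeZero L] (R : Finset (ℤ × ℤ)) (Ψ : Conf d L → ℂ) (a b : R → Fin d) :
    Pool.Agent.H4R2.redState R Ψ a b = expecR R Ψ 0 (unitM b a) / (nrm Ψ : ℂ) := by
  classical
  unfold Pool.Agent.H4R2.redState
  rw [Matrix.smul_apply, smul_eq_mul, div_eq_inv_mul]
  have h0 : Pool.Agent.H4R2.normSq Ψ = nrm Ψ := rfl
  rw [h0]
  congr 1
  unfold Pool.Agent.H4R2.rdm expecR
  rw [Finset.sum_comm]
  apply Finset.sum_congr rfl
  intro s _
  apply Finset.sum_congr rfl
  intro t _
  have hres : ∀ u : Conf d L, res R u 0 = fun x : R => u (Pool.Agent.H4R2.toTorus L x) := by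
    intro u
    funext x
    unfold res Pool.Agent.H4R2.toTorus
    simp
  have hiff : Pool.Agent.H4R2.Ker (fun x : R => Pool.Agent.H4R2.toTorus L x) a b t s ↔
      (∀ w : Site L, (∀ p ∈ R, w ≠ ((0 : Site L).1 + (p.1 : ZMod L), (0 : Site L).2 + (p.2 : ZMod L))) → s w = t w) ∧
        res R s 0 = b ∧ res R t 0 = a := by
    unfold Pool.Agent.H4R2.Ker
    constructor
    · rintro ⟨h1, h2, h3⟩
      refine ⟨?_, ?_, ?_⟩
      · intro w hw
        symm
        apply h3
        intro x hx
        apply hw x.1 x.2
        rw [← hx]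
        unfold Pool.Agent.H4R2.toTorus
        simp
      · rw [hres]
        funext x
        exact h2 x
      · rw [hres]
        funext x
        exact h1 x
    · rintro ⟨h1, h2, h3⟩
      refine ⟨?_, ?_, ?_⟩
      · intro x
        rw [hres] at h3
        exact congrFun h3 x
      · intro x
        rw [hres] at h2
        exact congrFun h2 x
      · intro w hw
        symm
        apply h1
        intro p hp e
        apply hw ⟨p, hp⟩
        rw [e]
        unfold Pool.Agent.H4R2.toTorus
        simp
  by_cases hk : Pool.Agent.H4R2.Ker (fun x : R => Pool.Agent.H4R2.toTorus L x) a b t s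
  · rw [if_pos hk]
    obtain ⟨h1, h2, h3⟩ := hiff.1 hk
    rw [if_pos h1, h2, h3]
    unfold unitM
    simp only [and_self, if_true, mul_one]
    exact mul_comm _ _
  · rw [if_neg hk]
    by_cases h1 : (∀ w : Site L, (∀ p ∈ R, w ≠ ((0 : Site L).1 + (p.1 : ZMod L), (0 : Site L).2 + (p.2 : ZMod L))) →
        s w = t w)
    · rw [if_pos h1]
      have h2 : ¬ (res R s 0 = b ∧ res R t 0 = a) := fun h => hk (hiff.2 ⟨h1, h⟩)
      unfold unitM
      rw [if_neg h2]
      simp
    · rw [if_neg h1]

theorem main : Pool.Agent.Q234.KG.TrS := by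
  classical
  intro d R L _ Ψ Ψ' ε _ h
  have hε : 0 ≤ ε := (norm_nonneg _).trans (h 0 0 _ contr_zero)
  have h1 := Pool.Agent.H4R2.traceNorm_le
    (Pool.Agent.H4R2.redState R Ψ - Pool.Agent.H4R2.redState R Ψ') ε hε (by
      intro a b
      rw [Matrix.sub_apply, entry, entry]
      exact h 0 0 _ (contr_unitM b a))
  refine h1.trans (le_of_eq ?_)
  congr 2
  rw [Fintype.card_fun, Fintype.card_fin, Fintype.card_coe]
  push_cast
  rfl

end Pool.Agent.Q195.KG.TR
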